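import Pool.Agent.W422.GC.Stms

set_option autoImplicit false

/-! The relation in the shifted variables. -/

namespace Pool.Agent.W230.GC.U2G

open MvPolynomial Pool.Agent.H628R4.TZ Pool.Agent.H628R4.TP Pool.Agent.W425.SM
open Pool.Agent.W422.GC

variable {r N : ℕ}

/-- the shift of the variables -/
noncomputable def sh (α : Fin r → ℕ) : MvPolynomial (Fin r) ℂ →ₐ[ℂ] MvPolynomial (Fin r) ℂ :=
  aeval (fun j => X j + C (α j : ℂ))

lemma sh_X (α : Fin r → ℕ) (j : Fin r) : sh α (X j) = X j + C (α j : ℂ) := by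
  unfold sh
  rw [aeval_X]

lemma sh_C (α : Fin r → ℕ) (c : ℂ) : sh α (C c) = C c := by
  unfold sh
  rw [aeval_C, MvPolynomial.algebraMap_eq]

/-- the shifted descending factorial -/
noncomputable def pds (j : Fin r) (a t : ℕ) : MvPolynomial (Fin r) ℂ :=
  ∏ m ∈ Finset.range t, (X j + C (a : ℂ) - C (m : ℂ))

/-- the complementary factor -/
noncomputable def ec (M : ℕ) (j : Fin r) (a : ℕ) : MvPolynomial (Fin r) ℂ :=
  ∏ l ∈ Finset.range (M - a), (X j + C ((a + l + 1 : ℕ) : ℂ))

lemma sh_ds (α : Fin r → ℕ) (j : Fin r) (t : ℕ) : sh α (ds j t) = pds j (α j) t := by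
  unfold ds pds
  rw [map_prod]
  refine Finset.prod_congr rfl fun m _ => ?_
  rw [map_sub, sh_X, sh_C]

lemma base (M : ℕ) (j : Fin r) (a : ℕ) (h : a ≤ M) : pds j a a * ec M j a = dm M j := by
  unfold pds ec dm
  have h1 : M = a + (M - a) := by omega
  conv_rhs => rw [h1, Finset.prod_range_add]
  congr 1
  rw [← Finset.prod_range_reflect (fun m => (X j + C ((m + 1 : ℕ) : ℂ) :
    MvPolynomial (Fin r) ℂ)) a]
  refine Finset.prod_congr rfl fun m hm => ?_
  have h2 := Finset.mem_range.1 hm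
  have h3 : a - 1 - m + 1 = a - m := by omega
  rw [h3, Nat.cast_sub h2.le, map_sub]
  ring

lemma fac (M : ℕ) (j : Fin r) (a t : ℕ) (h : a ≤ M) : ∃ w : MvPolynomial (Fin r) ℂ,
    pds j a t * ec M j a = (if a < t then X j * dm M j else 1) * w := by
  split_ifs with hat
  · refine ⟨∏ m ∈ Finset.Ico (a + 1) t, (X j + C (a : ℂ) - C (m : ℂ)), ?_⟩
    rw [← base M j a h]
    unfold pds
    rw [← Finset.prod_range_mul_prod_Ico _ hat.le, Finset.prod_eq_prod_Ico_succ_bot hat]
    ring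
  · exact ⟨pds j a t * ec M j a, by rw [one_mul]⟩

lemma sum_sh {α : Fin r → ℕ} {H : ℕ} (h : ∑ j, α j = H) :
    sh α (∑ j, X j - C (H : ℂ)) = ∑ j, X j := by
  rw [map_sub, map_sum, sh_C]
  simp only [sh_X]
  rw [Finset.sum_add_distrib, ← h]
  push_cast
  rw [map_sum]
  ring

lemma eh_sh {v : Fin r → Fin N → ℕ} {α : Fin r → ℕ} {h : Fin N → ℕ} {i : Fin N}
    (hi : ∑ j, α j * v j i = h i) : sh α (eh v h i) = el v i := by
  unfold eh el Lf
  rw [map_add, map_sub, map_sum, sh_C, map_one, ← hi]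
  simp only [map_mul, sh_X, sh_C]
  push_cast
  simp only [mul_add, Finset.sum_add_distrib, map_sum, map_mul]
  have h1 : ∑ x, (C (v x i : ℂ) : MvPolynomial (Fin r) ℂ) * C (α x : ℂ) =
      ∑ x, C (α x : ℂ) * C (v x i : ℂ) := Finset.sum_congr rfl fun _ _ => mul_comm _ _
  rw [h1]
  ring

theorem main : S_U2G := by
  classical
  intro r N loc v u p hu hR
  obtain ⟨H, h, D, Γ, d, q, hD, hloc, ⟨α₁, hα₁, hα₁h⟩, hΓ, hrel⟩ := hR
  set σ : MvPolynomial (Fin r) ℂ := ∑ j, X j with hσ
  -- cancel the factor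
  have hne : (σ - C (H : ℂ) + 1 : MvPolynomial (Fin r) ℂ) ≠ 0 := by
    intro h0
    have h1 := congrArg (eval fun j => (α₁ j : ℂ)) h0
    have h2 : ∑ j, (α₁ j : ℂ) = H := by
      rw [← (hD α₁ hα₁).2.1]
      push_cast
      rfl
    rw [hσ, map_add, map_sub, map_sum, eval_C, map_one, map_zero] at h1
    simp only [eval_X] at h1
    rw [h2] at h1
    simp at h1
  have hrel' : Polynomial.aeval (σ - C (H : ℂ)) p * ∑ α ∈ D, C (d α) * dsv α =
      ∑ γ ∈ Γ, (∏ i ∈ Finset.univ.filter (fun i => ∑ j, γ j * v j i < h i), eh v h i) *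
          (dsv γ * q γ) := by
    apply mul_left_cancel₀ hne
    rw [← hrel, map_mul, map_add, Polynomial.aeval_X, map_one]
    ring
  -- the smallest element
  set D0 := D.filter (fun α => ∀ i, ∑ j, α j * v j i = h i) with hD0
  obtain ⟨α₀, hα₀, hmin⟩ := Finset.exists_min_image D0 (fun α => ∑ j, (α j : ℝ) * u j)
    ⟨α₁, Finset.mem_filter.2 ⟨hα₁, hα₁h⟩⟩
  obtain ⟨hα₀D, hα₀h⟩ := Finset.mem_filter.1 hα₀
  obtain ⟨hd0, hsum0, -⟩ := hD α₀ hα₀D
  have hstrict : ∀ α ∈ D0, α ≠ α₀ → ∑ j, (α₀ j : ℝ) * u j < ∑ j, (α j : ℝ) * u j := by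
    intro α hα hne'
    refine lt_of_le_of_ne (hmin α hα) fun heq => hne' ?_
    have h1 := Fintype.linearIndependent_iff.1 hu (fun j => (α j : ℚ) - α₀ j) (by
      have h2 : ∀ j, ((α j : ℚ) - α₀ j) • u j = (α j : ℝ) * u j - (α₀ j : ℝ) * u j := by
        intro j
        rw [Rat.smul_def]
        push_cast
        ring
      simp only [h2]
      rw [Finset.sum_sub_distrib, heq, sub_self])
    funext j
    have h2 := h1 j
    have h3 : (α j : ℚ) = α₀ j := by linarith
    exact_mod_cast h3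
  -- the bound
  set M := ∑ j, α₀ j with hM
  have hMj : ∀ j, α₀ j ≤ M := fun j =>
    Finset.single_le_sum (f := α₀) (fun _ _ => Nat.zero_le _) (Finset.mem_univ j)
  choose W hW using fun (j : Fin r) (t : ℕ) => fac M j (α₀ j) t (hMj j)
  set E : MvPolynomial (Fin r) ℂ := ∏ j, ec M j (α₀ j) with hE
  have hdsv : ∀ α : Fin r → ℕ, sh α₀ (dsv α) * E =
      (∏ j, if α₀ j < α j then X j * dm M j else 1) * ∏ j, W j (α j) := by
    intro α
    unfold dsv
    rw [map_prod, hE, ← Finset.prod_mul_distrib, ← Finset.prod_mul_distrib]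
    refine Finset.prod_congr rfl fun j _ => ?_
    rw [sh_ds, hW]
  have hdsv0 : sh α₀ (dsv α₀) * E = ∏ j, dm M j := by
    unfold dsv
    rw [map_prod, hE, ← Finset.prod_mul_distrib]
    refine Finset.prod_congr rfl fun j _ => ?_
    rw [sh_ds, base M j _ (hMj j)]
  -- the shifted relation
  have hshift : Polynomial.aeval σ p * ∑ α ∈ D, C (d α) * (sh α₀ (dsv α) * E) =
      ∑ γ ∈ Γ, (∏ i ∈ Finset.univ.filter (fun i => ∑ j, γ j * v j i < h i), el v i) *
          ((sh α₀ (dsv γ) * E) * sh α₀ (q γ)) := by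
    have h1 := congrArg (fun x => sh α₀ x * E) hrel'
    simp only [map_mul, map_sum] at h1
    rw [← Polynomial.aeval_algHom_apply, hσ, sum_sh hsum0, mul_assoc, Finset.sum_mul,
      Finset.sum_mul] at h1
    rw [hσ]
    convert h1 using 2
    · refine Finset.sum_congr rfl fun α _ => ?_
      rw [sh_C, mul_assoc]
    · rename_i γ _
      rw [map_prod, Finset.prod_congr rfl fun i _ => eh_sh (hα₀h i)]
      ring
  -- the index sets
  set fR : (Fin r → ℕ) → (Fin r → ℤ) := fun α j => (α j : ℤ) - α₀ j with hfR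
  set fC : (Fin r → ℕ) → (Fin r → ℤ) := fun γ j => (α₀ j : ℤ) - γ j with hfC
  have hfRi : Function.Injective fR := by
    intro a b hab
    funext j
    have := congrFun hab j
    simp only [hfR] at this
    omega
  have hfCi : Function.Injective fC := by
    intro a b hab
    funext j
    have := congrFun hab j
    simp only [hfC] at this
    omega
  have hvR : ∀ α : Fin r → ℕ, ∀ i, ∑ j, fR α j * (v j i : ℤ) =
      ((∑ j, α j * v j i : ℕ) : ℤ) - h i := by
    intro α i
    rw [← hα₀h i]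
    simp only [hfR, sub_mul, Finset.sum_sub_distrib]
    push_cast
    rfl
  have hvC : ∀ γ : Fin r → ℕ, ∀ i, ∑ j, fC γ j * (v j i : ℤ) =
      (h i : ℤ) - ((∑ j, γ j * v j i : ℕ) : ℤ) := by
    intro γ i
    rw [← hα₀h i]
    simp only [hfC, sub_mul, Finset.sum_sub_distrib]
    push_cast
    rfl
  refine ⟨M, (D.erase α₀).image fR, Γ.image fC,
    fun ρ => C ((d α₀)⁻¹ * d fun j => (ρ j + α₀ j).toNat) * ∏ j, W j (ρ j + α₀ j).toNat,
    fun c => C ((d α₀)⁻¹) * ((∏ j, W j ((α₀ j : ℤ) - c j).toNat) *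
      sh α₀ (q fun j => ((α₀ j : ℤ) - c j).toNat)), ?_, ?_, ?_⟩
  · intro ρ hρ
    obtain ⟨α, hα, rfl⟩ := Finset.mem_image.1 hρ
    obtain ⟨hne', hαD⟩ := Finset.mem_erase.1 hα
    obtain ⟨-, hs, hge⟩ := hD α hαD
    refine ⟨?_, fun i => ?_, fun hz => ?_, fun hl i => ?_⟩
    · simp only [hfR]
      rw [Finset.sum_sub_distrib]
      have h1 : ((∑ j, α j : ℕ) : ℤ) = ((∑ j, α₀ j : ℕ) : ℤ) := by rw [hs, ← hM, hsum0]
      push_cast at h1
      linarith
    · rw [hvR]
      have := hge i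
      have h2 : ((h i : ℕ) : ℤ) ≤ ((∑ j, α j * v j i : ℕ) : ℤ) := by exact_mod_cast this
      linarith
    · have hmem : α ∈ D0 := by
        refine Finset.mem_filter.2 ⟨hαD, fun i => ?_⟩
        have h1 := hz i
        rw [hvR] at h1
        have h2 : ((∑ j, α j * v j i : ℕ) : ℤ) = ((h i : ℕ) : ℤ) := by linarith
        exact_mod_cast h2
      have h1 := hstrict α hmem hne'
      have h2 : ∑ j, ((fR α j : ℤ) : ℝ) * u j = ∑ j, (α j : ℝ) * u j -
          ∑ j, (α₀ j : ℝ) * u j := by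
        rw [← Finset.sum_sub_distrib]
        refine Finset.sum_congr rfl fun j _ => ?_
        simp only [hfR]
        push_cast
        ring
      rw [h2]
      linarith
    · rw [hvR, hloc hl α hαD i, sub_self]
  · intro c hc
    obtain ⟨γ, hγ, rfl⟩ := Finset.mem_image.1 hc
    have h1 := hΓ γ hγ
    simp only [hfC]
    rw [Finset.sum_sub_distrib]
    have h2 : ((∑ j, γ j + 1 : ℕ) : ℤ) = ((∑ j, α₀ j : ℕ) : ℤ) := by rw [h1, ← hM, hsum0]
    push_cast at h2
    linarith
  · rw [Finset.sum_image hfRi.injOn, Finset.sum_image hfCi.injOn]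
    have hdd : C (d α₀) * C ((d α₀)⁻¹) = (1 : MvPolynomial (Fin r) ℂ) := by
      rw [← C_mul, mul_inv_cancel₀ hd0, C_1]
    have hC0 : (C (d α₀) : MvPolynomial (Fin r) ℂ) ≠ 0 := by
      intro h0
      rw [h0, zero_mul] at hdd
      exact zero_ne_one hdd
    apply mul_left_cancel₀ hC0
    have hL : C (d α₀) * (Polynomial.aeval σ p * (∏ j, dm M j + ∑ α ∈ D.erase α₀,
        (∏ j, if 0 < fR α j then X j * dm M j else 1) *
          (C ((d α₀)⁻¹ * d fun j => (fR α j + α₀ j).toNat) *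
            ∏ j, W j (fR α j + α₀ j).toNat))) =
        Polynomial.aeval σ p * ∑ α ∈ D, C (d α) * (sh α₀ (dsv α) * E) := by
      rw [← Finset.add_sum_erase D _ hα₀D, hdsv0]
      have h1 : ∀ α ∈ D.erase α₀, C (d α₀) * ((∏ j, if 0 < fR α j then X j * dm M j else 1) *
          (C ((d α₀)⁻¹ * d fun j => (fR α j + α₀ j).toNat) *
            ∏ j, W j (fR α j + α₀ j).toNat)) = C (d α) * (sh α₀ (dsv α) * E) := by
        intro α _
        have e1 : ∀ j, (fR α j + α₀ j).toNat = α j := by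
          intro j
          simp only [hfR]
          omega
        have e2 : ∀ j, 0 < fR α j ↔ α₀ j < α j := by
          intro j
          simp only [hfR]
          omega
        simp only [e1, e2]
        rw [hdsv, C_mul]
        linear_combination (C (d α) * ((∏ j, if α₀ j < α j then
          (X j * dm M j : MvPolynomial (Fin r) ℂ) else 1) * ∏ j, W j (α j))) * hdd
      rw [← Finset.sum_congr rfl h1, ← Finset.mul_sum]
      ring
    rw [hL, hshift, Finset.mul_sum]
    refine Finset.sum_congr rfl fun γ _ => ?_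
    have e1 : ∀ j, ((α₀ j : ℤ) - fC γ j).toNat = γ j := by
      intro j
      simp only [hfC]
      omega
    have e2 : ∀ j, fC γ j < 0 ↔ α₀ j < γ j := by
      intro j
      simp only [hfC]
      omega
    have e3 : Bc v (fC γ) = Finset.univ.filter (fun i => ∑ j, γ j * v j i < h i) := by
      unfold Bc
      ext i
      simp only [Finset.mem_filter, Finset.mem_univ, true_and]
      rw [hvC]
      constructor
      · intro h1
        have h2 : ((∑ j, γ j * v j i : ℕ) : ℤ) < ((h i : ℕ) : ℤ) := by linarith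
        exact_mod_cast h2
      · intro h1
        have h2 : ((∑ j, γ j * v j i : ℕ) : ℤ) < ((h i : ℕ) : ℤ) := by exact_mod_cast h1
        linarith
    simp only [e1, e2]
    rw [e3, hdsv]
    linear_combination (-(∏ i ∈ Finset.univ.filter (fun i => ∑ j, γ j * v j i < h i), el v i) *
      ((∏ j, if α₀ j < γ j then (X j * dm M j : MvPolynomial (Fin r) ℂ) else 1) *
        (∏ j, W j (γ j)) * sh α₀ (q γ))) * hdd

end Pool.Agent.W230.GC.U2G
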